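import Pool.Agent.W650.HL.Stm

set_option autoImplicit false

/-! FININT: integrated logarithmic inequality (project HL of helper650). -/

namespace Pool.Agent.W854.HL

open Finset Pool.W650.HL

theorem finint (h1 : FINP) (h2 : FINN) (h3 : MFACTS) : FININT := by
  intro r a lam hg ha
  obtain ⟨hW, hp, hm, hm1, hbW, hb0, hv0, hvar⟩ := h3 r a lam hg
  have hlam := hg.lam_pos
  set b := bb a lam with hbdef
  set v := vv a lam with hvdef
  have hinv : 1 / lam = 1 + b + v := by
    rw [hvdef]; unfold vv; rw [← hbdef]; ring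
  set y : Fin r → ℝ := fun i => a i / lam - b with hy
  have hEb : ∑ i, mm a lam i * (a i / lam) = b := by
    rw [hbdef]; rfl
  have hEy : ∑ i, mm a lam i * y i = 0 := by
    simp only [hy, mul_sub, Finset.sum_sub_distrib]
    rw [hEb, ← Finset.sum_mul, hm1]; ring
  have hEy2 : ∑ i, mm a lam i * (y i) ^ 2 = (1 + b) * v := by
    have := hvar
    unfold EE at this
    exact this
  have hX : 3 / 8 / lam = 3 / 8 * (1 + b + v) := by
    rw [← hinv]; ring
  have hxX : ∀ i, a i / lam ≤ 3 / 8 * (1 + b + v) := by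
    intro i
    rw [← hX]
    exact div_le_div_of_nonneg_right (ha i) hlam.le
  have hx0 : ∀ i, 0 < a i / lam := fun i => div_pos (hg.pos i) hlam
  -- variance constraint
  have hq : 0 ≤ ∑ i, mm a lam i * ((a i / lam) * (3 / 8 * (1 + b + v) - a i / lam)) := by
    apply Finset.sum_nonneg
    intro i _
    have := hxX i
    have := hx0 i
    have := hm i
    apply mul_nonneg (hm i).le
    apply mul_nonneg (hx0 i).le
    linarith [hxX i]
  have hq2 : ∑ i, mm a lam i * ((a i / lam) * (3 / 8 * (1 + b + v) - a i / lam))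
      = 3 / 8 * (1 + b + v) * b - (b ^ 2 + (1 + b) * v) := by
    have e : ∀ i, mm a lam i * ((a i / lam) * (3 / 8 * (1 + b + v) - a i / lam))
        = (3 / 8 * (1 + b + v)) * (mm a lam i * (a i / lam))
          - (mm a lam i * (y i) ^ 2 + 2 * b * (mm a lam i * (a i / lam)) - b ^ 2 * mm a lam i) := by
      intro i
      simp only [hy]
      ring
    simp only [e, Finset.sum_sub_distrib, Finset.sum_add_distrib, ← Finset.mul_sum]
    rw [hEb, hEy2, hm1]; ring
  have hvb : v * (8 + 5 * b) ≤ b * (3 - 5 * b) := by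
    rw [hq2] at hq
    nlinarith [hq]
  have hb35 : b ≤ 3 / 5 := by
    by_contra hcon
    push Not at hcon
    have h1' : 0 ≤ v * (8 + 5 * b) := by positivity
    have h2' : b * (3 - 5 * b) < 0 := mul_neg_of_pos_of_neg hb0 (by linarith)
    linarith
  have h1b : 0 < 1 + b := by linarith
  set κ : ℝ := (3 / 8 * (1 + b + v)) ^ 4 / (1 + b) with hκ
  have hpt : ∀ i, 4 * (v - v ^ 2 / 2) + (-4 / (1 + v) + 2 / (1 + b)) * y i
      - (4 - 2 * v - κ) / (1 + b) * (y i) ^ 2
      ≤ 4 * Real.log (1 + v - y i) + 2 * Real.log (1 + y i / (1 + b)) := by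
    intro i
    rcases le_total 0 (y i) with h | h
    · refine h1 b v (y i) hb0.le hb35 hv0 hvb h ?_
      have := hxX i
      simp only [hy]
      linarith
    · refine h2 b v (y i) hb0.le hb35 hv0 hvb h ?_
      have := hx0 i
      simp only [hy]
      linarith
  have hsum : ∑ i, mm a lam i * (4 * (v - v ^ 2 / 2) + (-4 / (1 + v) + 2 / (1 + b)) * y i
      - (4 - 2 * v - κ) / (1 + b) * (y i) ^ 2)
      ≤ ∑ i, mm a lam i * (4 * Real.log (1 + v - y i) + 2 * Real.log (1 + y i / (1 + b))) :=
    Finset.sum_le_sum fun i _ => mul_le_mul_of_nonneg_left (hpt i) (hm i).le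
  have hL : ∑ i, mm a lam i * (4 * (v - v ^ 2 / 2) + (-4 / (1 + v) + 2 / (1 + b)) * y i
      - (4 - 2 * v - κ) / (1 + b) * (y i) ^ 2) = κ * v := by
    have e : ∀ i, mm a lam i * (4 * (v - v ^ 2 / 2) + (-4 / (1 + v) + 2 / (1 + b)) * y i
        - (4 - 2 * v - κ) / (1 + b) * (y i) ^ 2)
        = (4 * (v - v ^ 2 / 2)) * mm a lam i
          + (-4 / (1 + v) + 2 / (1 + b)) * (mm a lam i * y i)
          - (4 - 2 * v - κ) / (1 + b) * (mm a lam i * (y i) ^ 2) := by
      intro i; ring
    simp only [e, Finset.sum_sub_distrib, Finset.sum_add_distrib, ← Finset.mul_sum]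
    rw [hm1, hEy, hEy2]
    field_simp
    ring
  have hchi : ∀ i, chi a lam i = 1 + v - y i := by
    intro i
    unfold chi
    simp only [hy]
    have : (1 - a i) / lam = 1 / lam - a i / lam := by rw [sub_div]
    rw [this, hinv]; ring
  have hphi : ∀ i, Real.log (phi a lam i) = Real.log (1 + b) + Real.log (1 + y i / (1 + b)) := by
    intro i
    have e : phi a lam i = (1 + b) * (1 + y i / (1 + b)) := by
      unfold phi
      simp only [hy]
      field_simp
      ring
    have hpos : 0 < 1 + y i / (1 + b) := by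
      have h3 : 0 < (1 + b) * (1 + y i / (1 + b)) := by
        rw [← e]; unfold phi; linarith [hx0 i]
      exact (pos_iff_pos_of_mul_pos h3).1 h1b
    rw [e, Real.log_mul h1b.ne' hpos.ne']
  have hE1 : EE a lam (fun i => Real.log (phi a lam i))
      = Real.log (1 + b) + ∑ i, mm a lam i * Real.log (1 + y i / (1 + b)) := by
    unfold EE
    simp only [hphi, mul_add, Finset.sum_add_distrib, ← Finset.sum_mul]
    rw [hm1, one_mul]
  have hE2 : EE a lam (fun i => Real.log (chi a lam i))
      = ∑ i, mm a lam i * Real.log (1 + v - y i) := by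
    unfold EE
    simp only [hchi]
  have hR : ∑ i, mm a lam i * (4 * Real.log (1 + v - y i) + 2 * Real.log (1 + y i / (1 + b)))
      = 4 * ∑ i, mm a lam i * Real.log (1 + v - y i)
        + 2 * ∑ i, mm a lam i * Real.log (1 + y i / (1 + b)) := by
    rw [Finset.mul_sum, Finset.mul_sum, ← Finset.sum_add_distrib]
    refine Finset.sum_congr rfl fun i _ => ?_
    ring
  have hκ0 : 0 ≤ κ := by
    rw [hκ]; positivity
  have hmain : Real.log ((1 + b) ^ 2 + (3 / 8 / lam) ^ 4 * ((1 + b) * v))
      ≤ 2 * Real.log (1 + b) + κ * v := by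
    have e : (1 + b) ^ 2 + (3 / 8 / lam) ^ 4 * ((1 + b) * v) = (1 + b) ^ 2 * (1 + κ * v) := by
      rw [hX, hκ]
      field_simp
    have h5 : 0 < 1 + κ * v := by positivity
    rw [e, Real.log_mul (by positivity) h5.ne', Real.log_pow]
    have := Real.log_le_sub_one_of_pos h5
    push_cast
    linarith
  rw [hE1, hE2]
  rw [hL, hR] at hsum
  linarith

end Pool.Agent.W854.HL
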